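import Pool.Agent.LibAvoid.Main

/-!
# Parametrized diamond `◇(non(𝓜))` gives `ℵ₁`-dense strongly avoiding pairs

By the theorem of Moore, Hrušák and Džamonja on countable support iterations of Borel forcing
notions, `◇(non(𝓜))` holds in the Sacks model and in the Miller model (in both of them
`non(𝓜) = ℵ₁`), so in both models there are `ℵ₁`-dense `X, Y ⊆ 2^ω` which strongly avoid each other.
-/

set_option autoImplicit false

open Cardinal Pool.Agent.LibAvoid

namespace Pool.Agent.Results.MP_f38093_lc.SacksMiller

/-- If `◇(non(𝓜))` holds then there are `ℵ₁`-dense sets `X, Y ⊆ 2^ω` which strongly avoid each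
other. -/
theorem result (h : DiamondNonMeagre) :
    ∃ X Y : Set Cantor, KDense ℵ₁ X ∧ KDense ℵ₁ Y ∧ StronglyAvoids X Y ∧ StronglyAvoids Y X :=
  avoid h

end Pool.Agent.Results.MP_f38093_lc.SacksMiller
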